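import Pool.Agent.Helper35.GF.Stm

/-! Package MU for the result on `MP_c82530_nt`: multiplicative rank of algebraically independent
numbers. -/

set_option autoImplicit false

namespace Pool.Agent.Helper70.GF

open Set Module Pool.Agent.Helper35.EM Pool.Agent.Helper35.GF

/-- The vectors `a` for which `exp (∑ a_i z_i)` is in the closure of `T`. -/
noncomputable def W {n : ℕ} (z : Fin n → ℂ) (T : Set ℂ) : Submodule ℚ (Fin n → ℚ) where
  carrier := {a | Complex.exp (∑ i, (a i : ℂ) * z i) ∈ M.closure T}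
  add_mem' {a b} ha hb := by
    have h1 : ∑ i, ((a + b) i : ℂ) * z i = (∑ i, (a i : ℂ) * z i) + ∑ i, (b i : ℂ) * z i := by
      rw [← Finset.sum_add_distrib]
      refine Finset.sum_congr rfl fun i _ => ?_
      rw [Pi.add_apply]
      push_cast
      ring
    rw [mem_ofPred_eq, h1]
    exact cl_exp_add ha hb
  zero_mem' := by
    have h1 : ∑ i, ((((0 : Fin n → ℚ) i : ℚ)) : ℂ) * z i = 0 :=
      Finset.sum_eq_zero fun i _ => by simp
    rw [mem_ofPred_eq, h1, Complex.exp_zero]
    simpa using cl_ratCast T 1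
  smul_mem' q a ha := by
    have h1 : ∑ i, (((q • a) i : ℚ) : ℂ) * z i = q • ∑ i, (a i : ℂ) * z i := by
      rw [Finset.smul_sum]
      refine Finset.sum_congr rfl fun i _ => ?_
      rw [Pi.smul_apply, smul_eq_mul, Rat.smul_def]
      push_cast
      ring
    rw [mem_ofPred_eq, h1]
    exact cl_exp_smul q ha

theorem mem_W {n : ℕ} {z : Fin n → ℂ} {T : Set ℂ} {a : Fin n → ℚ} :
    a ∈ W z T ↔ Complex.exp (∑ i, (a i : ℂ) * z i) ∈ M.closure T := Iff.rfl

theorem rank {n : ℕ} {x z : Fin n → ℂ} (hx : AlgebraicIndependent ℚ x)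
    (hz : ∀ i, Complex.exp (z i) = x i) (U : Submodule ℚ (Fin n → ℚ)) :
    (finrank ℚ U : ℕ∞) ≤ M.eRk {c | ∃ a ∈ U, c = Complex.exp (∑ i, (a i : ℂ) * z i)} := by
  obtain ⟨C, hC⟩ := U.exists_isCompl
  set S : Set ℂ := {c | ∃ a ∈ U, c = Complex.exp (∑ i, (a i : ℂ) * z i)} with hS
  set c := Module.finBasis ℚ C with hc
  set F : Set ℂ := range (fun j => Complex.exp (∑ i, ((c j : Fin n → ℚ) i : ℂ) * z i)) with hF
  have h1 : U ≤ W z (S ∪ F) := fun a ha => mem_W.2 (cl_self (Or.inl ⟨a, ha, rfl⟩))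
  have h2 : C ≤ W z (S ∪ F) := by
    have h3 : C = Submodule.span ℚ (range fun j => (c j : Fin n → ℚ)) := by
      have h4 := c.span_eq
      have h5 := congrArg (Submodule.map C.subtype) h4
      rw [Submodule.map_span, Submodule.map_top, Submodule.range_subtype, ← range_comp] at h5
      exact h5.symm
    rw [h3, Submodule.span_le]
    rintro _ ⟨j, rfl⟩
    exact mem_W.2 (cl_self (Or.inr ⟨j, rfl⟩))
  have h3 : W z (S ∪ F) = ⊤ := by
    rw [eq_top_iff, ← hC.sup_eq_top]
    exact sup_le h1 h2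
  have h4 : range x ⊆ M.closure (S ∪ F) := by
    rintro _ ⟨i, rfl⟩
    have h5 : Pi.single i (1 : ℚ) ∈ W z (S ∪ F) := by rw [h3]; trivial
    have h6 := mem_W.1 h5
    have h7 : ∑ j, (((Pi.single i (1 : ℚ) : Fin n → ℚ) j : ℚ) : ℂ) * z j = z i := by
      rw [Finset.sum_eq_single i]
      · simp
      · intro j _ hj
        simp [Pi.single_eq_of_ne hj]
      · simp
    rwa [h7, hz] at h6
  have h5 : (n : ℕ∞) ≤ M.eRk (S ∪ F) := by
    have h6 : M.Indep (range x) := by
      rw [AlgebraicIndependent.matroid_indep_iff]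
      exact AlgebraicIndependent.coe_range hx
    have h7 : (range x).encard = n := by
      rw [← image_univ, hx.injective.encard_image]
      simp
    rw [← h7, ← h6.eRk_eq_encard, ← M.eRk_closure_eq (S ∪ F)]
    exact M.eRk_mono h4
  have h6 : M.eRk (S ∪ F) ≤ M.eRk S + (finrank ℚ C : ℕ∞) := by
    refine (M.eRk_union_le_eRk_add_encard S F).trans ?_
    gcongr
    rw [hF, ← image_univ]
    refine (encard_image_le _ _).trans ?_
    simp
  have h7 : finrank ℚ U + finrank ℚ C = n := by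
    rw [Submodule.finrank_add_eq_of_isCompl hC]
    simp
  have h8 : (finrank ℚ U : ℕ∞) + (finrank ℚ C : ℕ∞) ≤ M.eRk S + (finrank ℚ C : ℕ∞) := by
    refine le_trans ?_ (h5.trans h6)
    rw [← Nat.cast_add, h7]
  exact (ENat.add_le_add_iff_right (ENat.natCast_ne_top _)).1 h8

theorem mu : S_Mult := by
  intro n x z hx hz
  refine ⟨fun a ha => ?_, fun U => rank hx hz U⟩
  by_contra h0
  have h1 := rank hx hz (Submodule.span ℚ {a})
  rw [finrank_span_singleton h0] at h1
  have h2 : {c | ∃ b ∈ Submodule.span ℚ {a}, c = Complex.exp (∑ i, (b i : ℂ) * z i)} ⊆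
      M.closure ∅ := by
    rintro c ⟨b, hb, rfl⟩
    have h3 : Submodule.span ℚ {a} ≤ W z ∅ := by
      rw [Submodule.span_le]
      rintro _ rfl
      exact mem_W.2 ha
    exact mem_W.1 (h3 hb)
  have h3 := M.eRk_mono h2
  rw [M.eRk_closure_eq, M.eRk_empty] at h3
  have h4 := h1.trans h3
  simp at h4

end Pool.Agent.Helper70.GF
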